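import Pool.Agent.helper84.DM.Defs

/-!
# dm:CT  contour shifts on rectangles
-/

set_option autoImplicit false

open Complex Metric MeasureTheory

namespace Pool.Agent.helper84.DM

theorem ct_shift {f : ℂ → ℂ} {a b V M : ℝ} (hab : a ≤ b) (hV : 0 < V)
    (hf : ∀ z : ℂ, a ≤ z.re → z.re ≤ b → |z.im| ≤ V → DifferentiableAt ℂ f z)
    (hM : ∀ x : ℝ, a ≤ x → x ≤ b → ‖f (x + V * I)‖ ≤ M ∧ ‖f (x - V * I)‖ ≤ M) :
    ‖(∫ v in (-V)..V, f (b + v * I)) - ∫ v in (-V)..V, f (a + v * I)‖ ≤ 2 * (b - a) * M := by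
  have h := Complex.integral_boundary_rect_eq_zero_of_differentiableOn f (a - V * I) (b + V * I)
    (fun z hz => (by
      rw [mem_reProdIm] at hz
      have h1 := hz.1
      have h2 := hz.2
      simp only [sub_re, ofReal_re, mul_re, I_re, mul_zero, ofReal_im, I_im, mul_one, sub_self,
        sub_zero, add_re, add_zero, sub_im, mul_im, zero_sub, add_im, zero_add] at h1 h2
      rw [Set.uIcc_of_le hab] at h1
      rw [Set.uIcc_of_le (by linarith)] at h2
      exact (hf z h1.1 h1.2 (abs_le.2 ⟨h2.1, h2.2⟩)).differentiableWithinAt))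
  simp only [sub_re, ofReal_re, mul_re, I_re, mul_zero, ofReal_im, I_im, mul_one, sub_self,
        sub_zero, add_re, add_zero, sub_im, mul_im, zero_sub, add_im, zero_add, smul_eq_mul] at h
  have e : I * ((∫ v in (-V)..V, f (b + v * I)) - ∫ v in (-V)..V, f (a + v * I)) =
      (∫ x in a..b, f (x + V * I)) - ∫ x in a..b, f (x - V * I) := by
    have h2 : ∀ x : ℝ, f (x + (-V : ℝ) * I) = f (x - V * I) := fun x => by
      congr 1
      push_cast
      ring
    simp only [h2] at h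
    linear_combination h
  have b1 : ‖∫ x in a..b, f (x + V * I)‖ ≤ M * |b - a| :=
    intervalIntegral.norm_integral_le_of_norm_le_const fun x hx => by
      rw [Set.uIoc_of_le hab] at hx
      exact (hM x hx.1.le hx.2).1
  have b2 : ‖∫ x in a..b, f (x - V * I)‖ ≤ M * |b - a| :=
    intervalIntegral.norm_integral_le_of_norm_le_const fun x hx => by
      rw [Set.uIoc_of_le hab] at hx
      exact (hM x hx.1.le hx.2).2
  rw [abs_of_nonneg (by linarith)] at b1 b2
  have h3 : ‖I * ((∫ v in (-V)..V, f (b + v * I)) - ∫ v in (-V)..V, f (a + v * I))‖ ≤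
      M * (b - a) + M * (b - a) := by
    rw [e]
    exact (norm_sub_le _ _).trans (add_le_add b1 b2)
  rw [norm_mul, norm_I, one_mul] at h3
  linarith

theorem CT_ne {c v : ℝ} (hc : c ≠ 0) : (c : ℂ) + v * I ≠ 0 := fun h => by
  have := congrArg Complex.re h
  simp at this
  exact hc this

theorem CT_inv_cont {c : ℝ} (hc : c ≠ 0) : Continuous fun v : ℝ => 1 / ((c : ℂ) + v * I) :=
  continuous_const.div (by fun_prop) fun _ => CT_ne hc

theorem CT_J {c V : ℝ} (hc : 0 < c) (hV : 0 < V) :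
    Real.pi - 2 * c / V ≤ (∫ v in (-V)..V, 1 / ((c : ℂ) + v * I)).re := by
  have h1 : (∫ v in (-V)..V, 1 / ((c : ℂ) + v * I)).re = ∫ v in (-V)..V, c / (c ^ 2 + v ^ 2) := by
    have h := Complex.reCLM.intervalIntegral_comp_comm
      ((CT_inv_cont hc.ne').intervalIntegrable (μ := volume) (-V) V)
    simp only [Complex.reCLM_apply] at h
    rw [← h]
    refine intervalIntegral.integral_congr fun v _ => ?_
    simp [Complex.normSq_apply]
    ring_nf
  have h2 : ∫ v in (-V)..V, c / (c ^ 2 + v ^ 2) = Real.arctan (V / c) - Real.arctan (-V / c) := by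
    refine intervalIntegral.integral_eq_sub_of_hasDerivAt (f := fun v => Real.arctan (v / c))
      (fun v _ => ?_) ?_
    · have := ((hasDerivAt_id v).div_const c).arctan
      have e : 1 / (1 + (v / c) ^ 2) * (1 / c) = c / (c ^ 2 + v ^ 2) := by
        field_simp
      rw [← e]
      simpa using this
    · refine Continuous.intervalIntegrable ?_ _ _
      exact continuous_const.div (by fun_prop) fun v => by positivity
  have h3 : Real.arctan (-V / c) = -Real.arctan (V / c) := by rw [neg_div, Real.arctan_neg]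
  have h4 : Real.arctan (V / c) = Real.pi / 2 - Real.arctan (c / V) := by
    rw [← Real.arctan_inv_of_pos (by positivity), inv_div]
  have h5 : Real.arctan (c / V) ≤ c / V := by
    have h := Real.le_tan (Real.arctan_nonneg.2 (by positivity : 0 ≤ c / V))
      (Real.arctan_lt_pi_div_two _)
    rwa [Real.tan_arctan] at h
  rw [h1, h2, h3, h4]
  have : 2 * c / V = 2 * (c / V) := by ring
  rw [this]
  linarith

theorem CT_int {G : ℂ → ℂ} {c V : ℝ} (hc : c ≠ 0) (hV : 0 < V)
    (hG : ∀ v : ℝ, |v| ≤ V → DifferentiableAt ℂ G (c + v * I)) :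
    ∫ v in (-V)..V, dslope G 0 (c + v * I) =
      (∫ v in (-V)..V, G (c + v * I) / (c + v * I)) - G 0 * ∫ v in (-V)..V, 1 / ((c : ℂ) + v * I) := by
  have hcont : ContinuousOn (fun v : ℝ => G (c + v * I)) (Set.uIcc (-V) V) := fun v hv => by
    rw [Set.uIcc_of_le (by linarith)] at hv
    exact ((hG v (abs_le.2 ⟨hv.1, hv.2⟩)).continuousAt.comp (f := fun v : ℝ => (c : ℂ) + v * I)
      (by fun_prop)).continuousWithinAt
  have hi : IntervalIntegrable (fun v : ℝ => G (c + v * I) / (c + v * I)) volume (-V) V :=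
    (hcont.div (by fun_prop) fun v _ => CT_ne hc).intervalIntegrable
  rw [← intervalIntegral.integral_const_mul, ← intervalIntegral.integral_sub hi
    (((CT_inv_cont hc).intervalIntegrable _ _).const_mul _)]
  refine intervalIntegral.integral_congr fun v _ => ?_
  have hne : (c : ℂ) + v * I ≠ 0 := CT_ne hc
  rw [dslope_of_ne _ hne, slope_def_field, sub_zero]
  field_simp

theorem ct_res {G : ℂ → ℂ} {a b V M : ℝ} (ha : a < 0) (hb : 0 < b) (hV : 4 * (b - a) ≤ V)
    (hG : ∀ z : ℂ, a ≤ z.re → z.re ≤ b → |z.im| ≤ V → DifferentiableAt ℂ G z)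
    (hM : ∀ x : ℝ, a ≤ x → x ≤ b → ‖G (x + V * I)‖ ≤ M ∧ ‖G (x - V * I)‖ ≤ M) :
    ‖G 0‖ ≤ ‖∫ v in (-V)..V, G (b + v * I) / (b + v * I)‖
      + ‖∫ v in (-V)..V, G (a + v * I) / (a + v * I)‖ + M := by
  have hV0 : 0 < V := by linarith
  have hM0 : 0 ≤ M := (norm_nonneg _).trans (hM 0 ha.le hb.le).1
  have hdiff : ∀ z : ℂ, a ≤ z.re → z.re ≤ b → |z.im| ≤ V → DifferentiableAt ℂ (dslope G 0) z := by
    intro z h1 h2 h3
    rcases eq_or_ne z 0 with rfl | hz
    · have hopen : IsOpen (Set.Ioo a b ×ℂ Set.Ioo (-V) V) := isOpen_Ioo.reProdIm isOpen_Ioo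
      have hmem : (0 : ℂ) ∈ Set.Ioo a b ×ℂ Set.Ioo (-V) V := by
        rw [mem_reProdIm]
        exact ⟨⟨by simpa using ha, by simpa using hb⟩, ⟨by simpa using hV0, by simpa using hV0⟩⟩
      have hn := hopen.mem_nhds hmem
      refine ((differentiableOn_dslope hn).2 fun w hw => ?_).differentiableAt hn
      rw [mem_reProdIm] at hw
      exact (hG w hw.1.1.le hw.1.2.le (abs_le.2 ⟨hw.2.1.le, hw.2.2.le⟩)).differentiableWithinAt
    · exact (differentiableAt_dslope_of_ne hz).2 (hG z h1 h2 h3)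
  have hb' : ∀ w : ℂ, w ≠ 0 → V ≤ ‖w‖ → ‖G w‖ ≤ M → ‖dslope G 0 w‖ ≤ (M + ‖G 0‖) / V := by
    intro w hw0 hw hGw
    rw [dslope_of_ne _ hw0, slope_def_field, sub_zero, norm_div]
    exact div_le_div₀ (by positivity) ((norm_sub_le _ _).trans (by linarith)) hV0 hw
  have hshift := ct_shift (f := dslope G 0) (M := (M + ‖G 0‖) / V) (by linarith) hV0 hdiff
    (fun x h1 h2 => by
      have hn1 : V ≤ ‖(x : ℂ) + V * I‖ := by
        have := Complex.abs_im_le_norm ((x : ℂ) + V * I)
        simp [abs_of_pos hV0] at this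
        exact this
      have hn2 : V ≤ ‖(x : ℂ) - V * I‖ := by
        have := Complex.abs_im_le_norm ((x : ℂ) - V * I)
        simp [abs_of_pos hV0] at this
        exact this
      exact ⟨hb' _ (norm_pos_iff.1 (hV0.trans_le hn1)) hn1 (hM x h1 h2).1,
        hb' _ (norm_pos_iff.1 (hV0.trans_le hn2)) hn2 (hM x h1 h2).2⟩)
  rw [CT_int hb.ne' hV0 fun v hv => hG _ (by simp; linarith) (by simp) (by simpa using hv),
    CT_int ha.ne hV0 fun v hv => hG _ (by simp) (by simp; linarith) (by simpa using hv)] at hshift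
  set Ib := ∫ v in (-V)..V, G (b + v * I) / (b + v * I) with hIb
  set Ia := ∫ v in (-V)..V, G (a + v * I) / (a + v * I) with hIa
  have hJa : ∫ v in (-V)..V, 1 / ((a : ℂ) + v * I) = -∫ v in (-V)..V, 1 / (((-a : ℝ) : ℂ) + v * I) := by
    have h := intervalIntegral.integral_comp_neg (a := -V) (b := V)
      (fun v : ℝ => 1 / (((-a : ℝ) : ℂ) + v * I))
    rw [neg_neg] at h
    rw [← h, ← intervalIntegral.integral_neg]
    refine intervalIntegral.integral_congr fun v _ => ?_
    rw [neg_div', ← neg_div_neg_eq]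
    push_cast
    ring_nf
  have h1 := CT_J hb hV0
  have h2 := CT_J (c := -a) (by linarith) hV0
  rw [hJa] at hshift
  set Jb := ∫ v in (-V)..V, 1 / ((b : ℂ) + v * I)
  set Ja := ∫ v in (-V)..V, 1 / (((-a : ℝ) : ℂ) + v * I)
  have h3 : Real.pi - 2 * b / V + (Real.pi - 2 * (-a) / V) ≤ ‖Jb + Ja‖ := by
    refine le_trans ?_ (Complex.re_le_norm _)
    rw [add_re]
    linarith
  have h4 : G 0 * (Jb + Ja) = Ib - Ia - ((Ib - G 0 * Jb) - (Ia - G 0 * -Ja)) := by ring
  have h5 : ‖G 0‖ * ‖Jb + Ja‖ ≤ ‖Ib‖ + ‖Ia‖ + 2 * (b - a) * ((M + ‖G 0‖) / V) := by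
    rw [← norm_mul, h4]
    refine (norm_sub_le _ _).trans (add_le_add (norm_sub_le _ _) hshift)
  have h6 : (b - a) / V ≤ 1 / 4 := by
    rw [div_le_iff₀ hV0]
    linarith
  have hpi := Real.pi_gt_three
  have h7 : 2 * (b - a) * ((M + ‖G 0‖) / V) = 2 * ((b - a) / V) * (M + ‖G 0‖) := by ring
  have h8 : Real.pi - 2 * b / V + (Real.pi - 2 * (-a) / V) = 2 * Real.pi - 2 * ((b - a) / V) := by
    ring
  rw [h8] at h3
  rw [h7] at h5
  have h9 : 5 ≤ ‖Jb + Ja‖ := by linarith
  have h10 := mul_le_mul_of_nonneg_left h9 (norm_nonneg (G 0))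
  have h11 : 2 * ((b - a) / V) * (M + ‖G 0‖) ≤ 1 / 2 * (M + ‖G 0‖) :=
    mul_le_mul_of_nonneg_right (by linarith) (by positivity)
  have := norm_nonneg (G 0)
  have := norm_nonneg Ib
  have := norm_nonneg Ia
  linarith

end Pool.Agent.helper84.DM
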